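import Pool.Agent.H.MP_c7a479_co.OA

namespace Pool.Agent.Results.MP_c7a479_co.Large
open Function

def IsPermCube {m n : ℕ} (C : (Fin m → Fin n) → Fin n) : Prop :=
  ∀ x i, Bijective fun t => C (update x i t)

def Variational (m n k : ℕ) : Prop :=
  ∃ C : Fin k → (Fin m → Fin n) → Fin n, (∀ j, IsPermCube (C j)) ∧
    ∀ s : Fin m → Fin k, Injective s → Bijective fun (x : Fin m → Fin n) (i : Fin m) => C (s i) x

theorem ops {n : ℕ} (h : H.MP_c7a479_co.OA n) : ∃ p q : Fin n → Fin n → Fin n,
    (∀ y, Injective fun x => p x y) ∧ (∀ x, Injective (p x)) ∧ (∀ y, Injective fun x => q x y) ∧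
    (∀ x, Injective (q x)) ∧ ∀ x y x' y', p x y = p x' y' → q x y = q x' y' → x = x' ∧ y = y' := by
  obtain ⟨α, I, _, _, g, h1, h2, h3⟩ := h
  let e := Fintype.equivFinOfCardEq h1
  have hb : ∀ i j, i ≠ j → Bijective fun r => (e (g r i), e (g r j)) := fun i j hij =>
    (Fintype.bijective_iff_surjective_and_card _).2 ⟨fun ⟨a, b⟩ => by
      obtain ⟨r, r1, r2⟩ := h3 i j hij (e.symm a) (e.symm b)
      exact ⟨r, by simp [r1, r2]⟩, by simp [h2, sq]⟩
  choose r hr using (hb 0 1 (by decide)).2
  have r0 : ∀ x y, e (g (r (x, y)) 0) = x := fun x y => congrArg Prod.fst (hr (x, y))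
  have r1 : ∀ x y, e (g (r (x, y)) 1) = y := fun x y => congrArg Prod.snd (hr (x, y))
  have key : ∀ i j, i ≠ j → ∀ x y x' y', e (g (r (x, y)) i) = e (g (r (x', y')) i) →
      e (g (r (x, y)) j) = e (g (r (x', y')) j) → x = x' ∧ y = y' := by
    intro i j hij x y x' y' e1 e2
    have : r (x, y) = r (x', y') := (hb i j hij).1 (Prod.ext e1 e2)
    exact ⟨by rw [← r0 x y, this, r0], by rw [← r1 x y, this, r1]⟩
  exact ⟨fun x y => e (g (r (x, y)) 2), fun x y => e (g (r (x, y)) 3),
    fun y x x' h => (key 1 2 (by decide) x y x' y (by rw [r1, r1]) h).1,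
    fun x y y' h => (key 0 2 (by decide) x y x y' (by rw [r0, r0]) h).2,
    fun y x x' h => (key 1 3 (by decide) x y x' y (by rw [r1, r1]) h).1,
    fun x y y' h => (key 0 3 (by decide) x y x y' (by rw [r0, r0]) h).2, key 2 3 (by decide)⟩

theorem sys {α : Type} (p q : α → α → α) (p1 : ∀ y, Injective fun x => p x y)
    (p2 : ∀ x, Injective (p x)) (q1 : ∀ y, Injective fun x => q x y) (q2 : ∀ x, Injective (q x))
    (pq : ∀ x y x' y', p x y = p x' y' → q x y = q x' y' → x = x' ∧ y = y') {ι : Type}
    [DecidableEq ι] (S : Finset ι) : ∃ U : ι → (ι → α) → α,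
      (∀ i ∈ S, ∀ j ∈ S, ∀ x, Injective fun t => U i (update x j t)) ∧
      (∀ i ∈ S, ∀ j ∉ S, ∀ x t, U i (update x j t) = U i x) ∧
      ∀ x y, (∀ i ∈ S, U i x = U i y) → ∀ i ∈ S, x i = y i := by
  induction S using Finset.induction_on with
  | empty => exact ⟨fun i x => x i, by simp, by simp, by simp⟩
  | insert a S ha ih =>
    obtain ⟨U, h1, h2, h3⟩ := ih
    rcases S.eq_empty_or_nonempty with rfl | ⟨b, hb⟩
    · refine ⟨fun i x => x i, ?_, ?_, fun x y h => h⟩
      · simp only [insert_empty_eq, Finset.mem_singleton]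
        rintro _ rfl _ rfl x t t' h
        simpa using h
      · simp only [insert_empty_eq, Finset.mem_singleton]
        rintro _ rfl j hj x t
        exact update_of_ne (Ne.symm hj) _ _
    refine ⟨fun i x => if i = a then q (U b x) (x a) else p (U i x) (x a), fun i hi j hj x => ?_,
      fun i hi j hj x t => ?_, fun x y h => ?_⟩
    · rcases Finset.mem_insert.1 hj with rfl | hj
      · by_cases hia : i = j
        · simpa only [hia, if_true, h2 b hb j ha, update_self] using q2 _
        · simpa only [hia, if_false, h2 i ((Finset.mem_insert.1 hi).resolve_left hia) j ha,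
            update_self] using p2 _
      · have : a ≠ j := fun h => ha (h ▸ hj)
        by_cases hia : i = a
        · simpa only [hia, if_true, update_of_ne this, comp_def] using (q1 _).comp (h1 b hb j hj x)
        · simpa only [hia, if_false, update_of_ne this, comp_def] using
            (p1 _).comp (h1 i ((Finset.mem_insert.1 hi).resolve_left hia) j hj x)
    · rw [Finset.mem_insert, not_or] at hj
      by_cases hia : i = a
      · simp only [hia, if_true, update_of_ne (Ne.symm hj.1), h2 b hb j hj.2]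
      · simp only [hia, if_false, update_of_ne (Ne.symm hj.1),
          h2 i ((Finset.mem_insert.1 hi).resolve_left hia) j hj.2]
    · have ne : ∀ i ∈ S, i ≠ a := fun i hi h => ha (h ▸ hi)
      have e1 := h a (Finset.mem_insert_self _ _)
      have e2 := fun i hi => h i (Finset.mem_insert_of_mem hi)
      simp only [if_true] at e1
      have e3 := e2 b hb
      simp only [ne b hb, if_false] at e3
      have e4 := (pq _ _ _ _ e3 e1).2
      intro i hi
      rcases Finset.mem_insert.1 hi with rfl | hi
      · exact e4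
      · refine h3 x y (fun i hi => ?_) i hi
        have := e2 i hi
        simp only [ne i hi, if_false, e4] at this
        exact p1 _ this

theorem lower (m n : ℕ) (hm : 3 ≤ m) (h : H.MP_c7a479_co.OA n) : Variational m n (m + 1) := by
  obtain ⟨p, q, p1, p2, q1, q2, pq⟩ := ops h
  have : NeZero m := ⟨by omega⟩
  choose U h1 h2 h3 using fun c : ℕ =>
    sys p q p1 p2 q1 q2 pq (Finset.univ.filter fun i : Fin m => i.1 % 2 = c)
  simp only [Finset.mem_filter, Finset.mem_univ, true_and] at h1 h2 h3
  let u : ℕ → (Fin m → Fin n) → Fin n := fun i => U (i % 2) (Fin.ofNat m i)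
  have lat : ∀ f : Fin n → Fin n → Fin n, (∀ y, Injective fun x => f x y) →
      (∀ x, Injective (f x)) → ∀ i, i + 1 < m → IsPermCube fun x => f (u i x) (u (i + 1) x) := by
    intro f f1 f2 i hi x j
    have a1 : (Fin.ofNat m i).1 % 2 = i % 2 := by rw [Fin.val_ofNat, Nat.mod_eq_of_lt (show i < m by omega)]
    have a2 : (Fin.ofNat m (i + 1)).1 % 2 = (i + 1) % 2 := by
      rw [Fin.val_ofNat, Nat.mod_eq_of_lt hi]
    refine Finite.injective_iff_bijective.1 ?_
    by_cases hj : j.1 % 2 = i % 2
    · simpa only [u, h2 _ _ a2 j (by omega), comp_def] using (f1 _).comp (h1 _ _ a1 j hj x)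
    · simpa only [u, h2 _ _ a1 j hj, comp_def] using (f2 _).comp (h1 _ _ a2 j (by omega) x)
  let D : ℕ → (Fin m → Fin n) → Fin n := fun l x => if l = 0 then q (u 0 x) (u 1 x) else
    if l = m then q (u (m - 2) x) (u (m - 2 + 1) x) else p (u (l - 1) x) (u (l - 1 + 1) x)
  refine ⟨fun l => D l, fun l => ?_, fun s hs => Finite.injective_iff_bijective.1 fun x y hxy => ?_⟩
  · by_cases h0 : l.1 = 0
    · simpa only [D, h0, if_true] using lat q q1 q2 0 (by omega)
    by_cases h' : l.1 = m
    · simpa only [D, h', NeZero.ne m, if_true, if_false] using lat q q1 q2 (m - 2) (by omega)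
    · simpa only [D, h0, h', if_false] using lat p p1 p2 (l - 1) (by omega)
  obtain ⟨r, hr⟩ : ∃ r : ℕ, ∀ l ≤ m, l ≠ r → D l x = D l y := by
    by_contra hc
    push Not at hc
    obtain ⟨a, a1, -, a3⟩ := hc 0
    obtain ⟨b, b1, b2, b3⟩ := hc a
    have := Finset.card_le_card_of_injOn (s := Finset.univ) s (t := (Finset.univ.erase
      ⟨a, by omega⟩).erase ⟨b, by omega⟩) (fun i _ => by
        simp only [Finset.coe_erase, Finset.coe_univ, Set.mem_sdiff, Set.mem_univ,
          Set.mem_singleton_iff, true_and]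
        exact ⟨fun h => a3 (by simpa [h] using congrFun hxy i),
          fun h => b3 (by simpa [h] using congrFun hxy i)⟩) hs.injOn
    rw [Finset.card_erase_of_mem (by simpa [Fin.ext_iff] using b2),
      Finset.card_erase_of_mem (Finset.mem_univ _)] at this
    simp at this
    omega
  let E : ℕ → Prop := fun i => u i x = u i y
  have lk : ∀ f : Fin n → Fin n → Fin n, (∀ y, Injective fun x => f x y) →
      (∀ x, Injective (f x)) → ∀ i, f (u i x) (u (i + 1) x) = f (u i y) (u (i + 1) y) →
      (E i ↔ E (i + 1)) := fun f f1 f2 i h =>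
    ⟨fun e => f2 _ (by rwa [show u i x = u i y from e] at h),
      fun e => f1 _ (by rwa [show u (i + 1) x = u (i + 1) y from e] at h)⟩
  have d0 : r ≠ 0 → q (u 0 x) (u 1 x) = q (u 0 y) (u 1 y) := fun h => hr 0 (by omega) h.symm
  have dm : r ≠ m → q (u (m - 2) x) (u (m - 2 + 1) x) = q (u (m - 2) y) (u (m - 2 + 1) y) :=
    fun h => by simpa only [D, NeZero.ne m, if_true, if_false] using hr m le_rfl h.symm
  have dl : ∀ i, i + 1 < m → i + 1 ≠ r → p (u i x) (u (i + 1) x) = p (u i y) (u (i + 1) y) :=
    fun i h h' => by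
      simpa only [D, Nat.succ_ne_zero, h.ne, if_false, Nat.add_sub_cancel] using hr _ h.le h'
  have link : ∀ i, i + 1 < m → (i + 1 ≠ r ∨ i = 0 ∨ i = m - 2) → (E i ↔ E (i + 1)) := by
    intro i h h'
    by_cases h2 : i + 1 = r
    · rcases h'.resolve_left (not_not.2 h2) with rfl | rfl
      · exact lk q q1 q2 0 (d0 (by omega))
      · exact lk q q1 q2 _ (dm (by omega))
    · exact lk p p1 p2 i (dl i h h2)
  have up : r ≠ 0 → r ≠ 1 → ∀ i < m, (i < r ∨ m - 1 ≤ r) → E i := by
    intro r0 r1 i
    induction i with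
    | zero => exact fun _ _ => (pq _ _ _ _ (dl 0 (by omega) r1.symm) (d0 r0)).1
    | succ i ih => exact fun h h' => (link i h (by omega)).1 (ih (by omega) (by omega))
  have dn : r ≠ m → r ≠ m - 1 → ∀ k, k + 2 ≤ m → (r ≤ m - 2 - k ∨ r ≤ 1) → E (m - 2 - k) := by
    intro r0 r1 k
    induction k with
    | zero => exact fun _ _ => (pq _ _ _ _ (dl (m - 2) (by omega) (by omega)) (dm r0)).1
    | succ k ih =>
      intro h h'
      refine (link _ (by omega) (by omega)).2 ?_
      rw [show m - 2 - (k + 1) + 1 = m - 2 - k by omega]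
      exact ih (by omega) (by omega)
  have all : ∀ i < m, E i := by
    have : ∀ i, i + 2 ≤ m → E i := fun i hi => by
      by_cases h : r ≠ 0 ∧ r ≠ 1 ∧ (i < r ∨ m - 1 ≤ r)
      · exact up h.1 h.2.1 i (by omega) h.2.2
      · have := dn (by omega) (by omega) (m - 2 - i) (by omega) (by omega)
        rwa [show m - 2 - (m - 2 - i) = i by omega] at this
    intro i hi
    by_cases h : i + 2 ≤ m
    · exact this i h
    · rw [show i = m - 2 + 1 by omega]
      exact (link _ (by omega) (by omega)).1 (this _ (by omega))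
  funext i
  refine h3 _ x y (fun j hj => ?_) i rfl
  have := all j j.2
  simpa only [E, u, Fin.ofNat_val_eq_self, hj] using this

theorem upper (m n k : ℕ) (hn : 2 ≤ n) (hm : n ≤ m) (h : Variational m n k) : k ≤ m + 1 := by
  by_contra hk
  obtain ⟨C, -, hC⟩ := h
  let c : Fin (m + 2) → Fin k := Fin.castLE (by omega)
  have dist : ∀ (x y) (i j : Fin (m + 2)), (∀ l, l ≠ i → l ≠ j → C (c l) x = C (c l) y) → x = y := by
    intro x y i j h
    obtain ⟨e⟩ : Nonempty (Fin m ↪ {l // l ∈ (Finset.univ.erase i).erase j}) :=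
      Embedding.nonempty_of_card_le (by
        have := Finset.pred_card_le_card_erase (s := Finset.univ.erase i) (a := j)
        rw [Finset.card_erase_of_mem (Finset.mem_univ _)] at this
        simp only [Fintype.card_fin, Fintype.card_coe, Finset.card_univ] at this ⊢
        omega)
    refine (hC (fun a => c (e a)) ((Fin.castLE_injective _).comp
      (Subtype.val_injective.comp e.injective))).1 (funext fun a => ?_)
    have := (e a).2
    simp only [Finset.mem_erase] at this
    exact h _ this.2.1 this.1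
  let d : Fin m → Fin (m + 2) := Fin.castLE (by omega)
  choose X hX using (hC (fun i => c (d i))
    ((Fin.castLE_injective _).comp (Fin.castLE_injective _))).2
  have hX' : ∀ w i, C (c (d i)) (X w) = w i := fun w i => congrFun (hX w) i
  let o : Fin n := ⟨0, by omega⟩
  let A : Fin (m + 2) := ⟨m, by omega⟩
  let B : Fin (m + 2) := ⟨m + 1, by omega⟩
  have cs : ∀ l : Fin (m + 2), l = A ∨ l = B ∨ ∃ i, l = d i := fun l => by
    by_cases h : l.1 < m
    · exact Or.inr (Or.inr ⟨⟨l, h⟩, rfl⟩)
    · simp only [Fin.ext_iff, A, B]; omega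
  let W : Fin m × {a : Fin n // a ≠ o} → Fin m → Fin n := fun z => update (fun _ => o) z.1 z.2
  have ne : ∀ z, X (W z) ≠ X (fun _ => o) := fun z h => z.2.2 (by
    have := hX' (W z) z.1
    rw [h, hX'] at this
    simpa [W] using this.symm)
  have ag : ∀ z i, d i ≠ d z.1 → W z i = o := fun z i h => update_of_ne (fun h' => h (by rw [h'])) _ _
  have hA : ∀ z, C (c A) (X (W z)) ≠ C (c A) (X fun _ => o) := fun z h =>
    ne z (dist _ _ (d z.1) B fun l l1 l2 => by
      rcases cs l with rfl | rfl | ⟨i, rfl⟩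
      exacts [h, absurd rfl l2, by rw [hX', hX', ag z i l1]])
  have hB : ∀ z, C (c B) (X (W z)) ≠ C (c B) (X fun _ => o) := fun z h =>
    ne z (dist _ _ (d z.1) A fun l l1 l2 => by
      rcases cs l with rfl | rfl | ⟨i, rfl⟩
      exacts [absurd rfl l2, h, by rw [hX', hX', ag z i l1]])
  have := Fintype.card_le_of_injective (fun z => ((⟨_, hA z⟩, ⟨_, hB z⟩) :
      {a // a ≠ C (c A) (X fun _ => o)} × {a // a ≠ C (c B) (X fun _ => o)})) fun z z' h => by
    simp only [Prod.mk.injEq, Subtype.mk.injEq] at h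
    have e := dist (X (W z)) (X (W z')) (d z.1) (d z'.1) fun l l1 l2 => by
      rcases cs l with rfl | rfl | ⟨i, rfl⟩
      exacts [h.1, h.2, by rw [hX', hX', ag z i l1, ag z' i l2]]
    have e1 : W z z.1 = W z' z.1 := by rw [← hX' (W z), ← hX' (W z'), e]
    by_cases e2 : z.1 = z'.1
    · refine Prod.ext e2 (Subtype.ext ?_)
      simpa only [W, e2, update_self] using e1
    · exact absurd (by simpa only [W, update_self, update_of_ne e2] using e1) z.2.2
  simp only [Fintype.card_prod, Fintype.card_fin, ne_eq, Fintype.card_subtype_compl,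
    Fintype.card_unique] at this
  have := Nat.le_of_mul_le_mul_right this (by omega)
  omega

theorem result (m n : ℕ) (hm : 3 ≤ m) (hn : 3 ≤ n) (h6 : n ≠ 6) :
    Variational m n (m + 1) ∧ (n ≤ m → IsGreatest {k | Variational m n k} (m + 1)) :=
  have h := lower m n hm (H.MP_c7a479_co.all n hn h6)
  ⟨h, fun h' => ⟨h, fun k hk => upper m n k (by omega) h' hk⟩⟩

end Pool.Agent.Results.MP_c7a479_co.Large
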